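import Pool.Agent.W907.SM.Final

/-!
# `ℓ²`-homology above the middle for full subcomplexes of barycentric subdivisions

For a graded poset of length `n` whose order complex is Gorenstein* over `F_2` (for example the face poset of a
triangulated `(n-1)`-sphere) and an arbitrary subset `A` of it, the right-angled Coxeter group whose nerve is the
order complex of `A` has vanishing reduced `ℓ²`-homology in all degrees `> n / 2`.
-/

namespace Pool.Agent.Results.MP_8fe54c_gt.SubposetsAboveMiddle

open Pool.Agent.W907.SG Pool.Agent.W907.SM

/-- Vanishing above the middle for all subsets of Gorenstein* posets. -/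
theorem result : ∀ (n : ℕ) (V : Type) [Fintype V] [LinearOrder V] (r : V → V → Prop) (rk : V → Fin n),
    GorStar n r rk → ∀ (A : Set V) [Fintype ↥A] (i : ℕ), n < 2 * i → L2Van ((cmp r).induce A) i :=
  aboveGor

end Pool.Agent.Results.MP_8fe54c_gt.SubposetsAboveMiddle
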